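import Pool.Graph.R_pool_sql_team_seeded_1acbe0a2.Y194.VN.Harm
import Pool.Graph.R_pool_sql_team_seeded_63374d34.N496.CV.DualPf
import Pool.Graph.R_pool_sql_team_seeded_63374d34.N496.CV.L2Pf

/-!
helper320: the two formalisms for `ℓ²`-Betti numbers; statements.
-/

set_option autoImplicit false

open scoped Matrix ENNReal

namespace Pool.Agent.H320.LC

open Pool.Agent.Helper655.VN Pool.Agent.RK VN831 Pool.Agent.N496.CV
open Pool.Agent.Y194.VN (harm)

attribute [local instance] VN831.bcFunctor_additive VN831.viaAdd VN831.viaMod V7N.bcF_additive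
  V7N.rmAdd V7N.rmMod

/-- no harmonic vectors: the ranks of the two matrices add up -/
def LNK : Prop := ∀ (Γ : Type) [Group Γ] (a b c : ℕ)
  (A : Matrix (Fin a) (Fin b) (MonoidAlgebra ℤ Γ)) (B : Matrix (Fin b) (Fin c) (MonoidAlgebra ℤ Γ)),
  A * B = 0 → harm B A = ⊥ →
  rk (tau Γ) (A.map (V7N.evM (canL : Γ →* NG Γ))) +
    rk (tau Γ) (B.map (V7N.evM (canL : Γ →* NG Γ))) = b

/-- the dimension of the homology is given by the ranks -/
def LUK : Prop := ∀ (Γ : Type) [Group Γ] (a b c : ℕ)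
  (A : Matrix (Fin a) (Fin b) (NG Γ)) (B : Matrix (Fin b) (Fin c) (NG Γ)), A * B = 0 →
  luckDim Γ (HR (RingHom.id (NG Γ)) (canL : Γ →* NG Γ) A B) =
    ENNReal.ofReal (b - rk (tau Γ) A - rk (tau Γ) B)

/-- the Euler characteristic of a Poincaré duality group of even dimension whose `ℓ²`-Betti numbers
vanish outside the middle degree -/
def EUL : Prop := ∀ (Γ : Type) [Group Γ] (m : ℕ) (P : PD Γ (2 * m)),
  (∀ k, k ≠ m → l2Betti Γ k = 0) →
  0 ≤ (-1 : ℝ) ^ m * ∑ i ∈ Finset.range (2 * m + 1), (-1 : ℝ) ^ i * (P.C.r i : ℝ) ∧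
  l2Betti Γ m = ENNReal.ofReal
    ((-1 : ℝ) ^ m * ∑ i ∈ Finset.range (2 * m + 1), (-1 : ℝ) ^ i * (P.C.r i : ℝ))

end Pool.Agent.H320.LC
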