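import Pool.Agent.H320.GS.Act

/-!
helper320: denominators of the `ℓ²`-Betti numbers of subgroups of `GL_n (ℤ_p)` whose closure has no
element of order `p`; statement.
-/

set_option autoImplicit false

open Finset Matrix

namespace Pool.Agent.H320.LC

open Pool.Agent.H80R2
open Pool.Agent.H80R2.BC (L2 GMat vdim IsTr LInv Equi act kerA)
open Pool.Agent.H812R3
open Pool.Agent.W656.VA

/-- the dimensions of the kernels of matrices over `ℤ[Γ]` are multiples of `1 / d` -/
def QZ (Γ : Type) [Group Γ] (d : ℕ) : Prop :=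
  0 < d ∧ ∀ v : ℝ, Val (Int.castRingHom ℂ).range Γ v → ∃ z : ℤ, (d : ℝ) * v = z

/-- The group `Γ` embeds in `GL_n (ℤ_p)`, the closure of its image in the matrices has no element of
order `p`, and the order of its image in `GL_n (ℤ/p)` divides `D p^b` for some `b`. -/
def Padic (Γ : Type) [Group Γ] (D : ℕ) : Prop :=
  0 < D ∧ ∃ (p : ℕ) (_ : Fact p.Prime) (n : ℕ) (f : Γ →* (Matrix (Fin n) (Fin n) ℤ_[p])ˣ),
    Function.Injective f ∧
    (∀ t ∈ closure (Set.range fun g => ((f g : (Matrix (Fin n) (Fin n) ℤ_[p])ˣ) :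
      Matrix (Fin n) (Fin n) ℤ_[p])), t ^ p = 1 → t = 1) ∧
    ∃ b : ℕ, Nat.card (Set.range fun g => ((f g : (Matrix (Fin n) (Fin n) ℤ_[p])ˣ) :
      Matrix (Fin n) (Fin n) ℤ_[p]).map (PadicInt.toZMod (p := p))) ∣ D * p ^ b

/-- integrality for the groups of `Padic` -/
def PAD : Prop := ∀ (Γ : Type) [Group Γ] (D : ℕ), Padic Γ D → QZ Γ D

end Pool.Agent.H320.LC
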