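import Pool.Agent.H320.LB.Lin
import Pool.Agent.H320.LB.B0
import Pool.Agent.H320.LC.StmP
import Pool.Agent.H320.LC.StmL

/-!
helper320: the Singer conjecture for Poincaré duality groups from finitely many finite coverings.
-/

set_option autoImplicit false

open Finset
open scoped Matrix ENNReal

namespace Pool.Agent.H320.LC

open Pool.Agent.H80R2
open Pool.Agent.H80R2.BC (L2 GMat vdim IsTr LInv Equi act kerA)
open Pool.Agent.H812R3
open Pool.Agent.W656.VA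
open Pool.Agent.Y194.VN
open Pool.Agent.N496.CV (PD)

variable {Γ : Type} [Group Γ] {d : ℕ}

theorem qz_of_quant (h : Pool.Agent.H320.LB.Quant Γ d) : QZ Γ d := by
  refine ⟨h.1, fun v hv => h.2 v ?_⟩
  obtain ⟨m, n, X, hX, rfl⟩ := hv
  exact ⟨m, n, X, fun _ _ _ => Subring.mem_top _, rfl⟩

theorem QZ.ker (h : QZ Γ d) {s r : ℕ} (A : Matrix (Fin s) (Fin r) (MonoidAlgebra ℤ Γ)) :
    ∃ z : ℤ, (d : ℝ) * vdim (kerA (cf A)) = z :=
  h.2 _ (val_of (cf A) fun k i g => ⟨(A k i).coeff g, rfl⟩)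

theorem QZ.b2 (h : QZ Γ d) (C : Cx Γ) (i : ℕ) : ∃ z : ℤ, (d : ℝ) * C.b2 i = z := by
  obtain ⟨z1, h1⟩ := h.ker (C.d i)
  obtain ⟨z2, h2⟩ := h.ker (C.b i)
  refine ⟨z1 + z2 - d * C.m i, ?_⟩
  rw [C.b2_eq]
  push_cast
  linarith

theorem QZ.b2_zero (h : QZ Γ d) (C : Cx Γ) (i : ℕ) (hlt : (d : ℝ) * C.b2 i < 1) :
    C.b2 i = 0 := by
  obtain ⟨z, hz⟩ := h.b2 C i
  have h0 : 0 ≤ C.b2 i := vdim_nonneg _
  have h1 : (z : ℝ) < 1 := by rw [← hz]; exact hlt
  have h2 : z ≤ 0 := by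
    have : z < 1 := by exact_mod_cast h1
    omega
  have h3 : (0 : ℝ) < d := by exact_mod_cast h.1
  have h4 : (z : ℝ) ≤ 0 := by exact_mod_cast h2
  rw [← hz] at h4
  nlinarith

/-- subgroups of finite index -/
theorem QZ.fi (U : Subgroup Γ) (hU : U.index ≠ 0) (h : QZ U d) : QZ Γ (U.index * d) := by
  classical
  refine ⟨Nat.mul_pos (Nat.pos_of_ne_zero hU) h.1, fun w hw => ?_⟩
  obtain ⟨m, n, X, hX, rfl⟩ := hw
  have hfi : U.FiniteIndex := ⟨hU⟩
  have : Finite (Γ ⧸ U) := Subgroup.finite_quotient_of_finiteIndex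
  have i1 : Fintype (Γ ⧸ U) := Fintype.ofFinite _
  obtain ⟨z, hz⟩ := h.2 _ (val_of (Pool.Agent.TH107.AT.res U X) (R := (Int.castRingHom ℂ).range)
    fun p q a => hX p.1 q.1 _)
  refine ⟨z, ?_⟩
  rw [← hz, Pool.Agent.TH107.AT.vdim_res]
  have h3 : (U.index : ℝ) = Fintype.card (Γ ⧸ U) := by
    rw [Subgroup.index, Nat.card_eq_fintype_card]
  push_cast
  rw [h3]
  ring

theorem harm_bot {C : Cx Γ} {i : ℕ} (h : C.b2 i = 0) : harm (C.b i) (C.d i) = ⊥ :=
  eq_bot_of_vdim (closed_harm _ _) (linv_harm _ _) h.le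

/-- the cochain complex of a free resolution -/
def cx (C : V7N.FreeRes Γ) : Cx Γ where
  n := C.r
  d := C.d
  dd := V7N.gen_mul Γ C

/-- The Betti number of degree `i` of the complex is small: there are a prime number `p` and a
subgroup `N` of finite index which is residually a finite `p`-group such that `H^j(N; ℤ)` is, for
`j ≤ i + 1`, the direct sum of `ℤ ^ (a j)`, of the groups `ℤ/p^(v j l)`, `l < m j`, and of a finite
group of order prime to `p`, and, with `W_j = ∑_l (1 - p^(-v j l))`, one of the numbers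
`a_i + W_i + W_{i+1}` and `a_i - a_{i-1} + a_{i-2} - … + W_{i+1}` is smaller than
`[Γ : N] / D`. -/
def Small (C : Cx Γ) (D i : ℕ) : Prop :=
  ∃ (p : ℕ) (_ : Fact p.Prime) (N : Subgroup Γ) (a m : ℕ → ℕ) (v : ∀ j, Fin (m j) → ℕ),
    N.index ≠ 0 ∧ ResP p N ∧ (∀ j ≤ i + 1, TypeOf p (C.H N j) (a j) (v j)) ∧
    (D * (a i + ∑ l, (1 - ((p : ℝ)⁻¹) ^ v i l) + ∑ l, (1 - ((p : ℝ)⁻¹) ^ v (i + 1) l)) <
        (N.index : ℝ) ∨
      D * (∑ j ∈ range (i + 1), (-1 : ℝ) ^ (i + j) * a j +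
        ∑ l, (1 - ((p : ℝ)⁻¹) ^ v (i + 1) l)) < (N.index : ℝ))

theorem b2_small {D : ℕ} (hQ : QZ Γ D) (C : Cx Γ) (i : ℕ) (hz : ∀ j < i, C.b2 j = 0)
    (h : Small C D i) : C.b2 i = 0 := by
  obtain ⟨p, _, N, a, m, v, hN, hp, hT, h⟩ := h
  have hD : (0 : ℝ) < D := by exact_mod_cast hQ.1
  have h0 : (0 : ℝ) < N.index := by exact_mod_cast Nat.pos_of_ne_zero hN
  have key : ∀ b : ℝ, N.index * C.b2 i ≤ b → D * b < N.index → C.b2 i = 0 := by
    intro b hb hlt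
    apply hQ.b2_zero
    have h3 : (N.index : ℝ) * (D * C.b2 i) < N.index * 1 := by nlinarith
    exact lt_of_mul_lt_mul_left h3 h0.le
  rcases h with h | h
  · exact key _ (betti_bound C hN hp i (hT i (Nat.le_succ i)) (hT (i + 1) le_rfl)) h
  · refine key _ ?_ h
    have h1 := alt_bound C hN hp i hT
    have h2 : ∑ j ∈ range (i + 1), (-1 : ℝ) ^ (i + j) * C.b2 j = C.b2 i := by
      rw [sum_range_succ, sum_eq_zero, zero_add, ← two_mul, pow_mul, neg_one_sq, one_pow, one_mul]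
      intro j hj
      rw [hz j (mem_range.1 hj), mul_zero]
    rwa [h2] at h1

theorem b2_cx_zero [Infinite Γ] (C : V7N.FreeRes Γ) : (cx C).b2 0 = 0 := by
  rw [Cx.b2_zero]
  refine Pool.Agent.H320.LB.b0 Γ _ _ _ (C.d 1) (C.d 0) C.ε ⟨C.ε_surj, ?_, ?_, ?_⟩
  · intro g v
    exact C.ε_smul g v
  · intro v
    rw [C.exact_zero]
    exact exists_congr fun u => eq_comm
  · intro v
    rw [C.exact_succ]
    exact exists_congr fun u => eq_comm

theorem b2_all [Infinite Γ] {D : ℕ} (hQ : QZ Γ D) (C : V7N.FreeRes Γ) (q : ℕ)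
    (h : ∀ i, 0 < i → 2 * i < q → Small (cx C) D i) : ∀ i, 2 * i < q → (cx C).b2 i = 0 := by
  intro i
  induction i using Nat.strong_induction_on with
  | _ i ih =>
    intro hi
    rcases Nat.eq_zero_or_pos i with rfl | h0
    · exact b2_cx_zero C
    · exact b2_small hQ (cx C) i (fun j hj => ih j hj (by omega)) (h i h0 hi)

section singer

open Pool.Agent.Helper655.VN Pool.Agent.RK VN831 Pool.Agent.N496.CV

attribute [local instance] VN831.bcFunctor_additive VN831.viaAdd VN831.viaMod V7N.bcF_additive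
  V7N.rmAdd V7N.rmMod

theorem l2_zero (lnk : LNK) (C : V7N.FreeRes Γ) (i : ℕ) (h : (cx C).b2 i = 0) :
    l2Betti Γ i = 0 := by
  cases i with
  | zero =>
    have h1 := lnk Γ _ _ _ ((cx C).d 0) ((cx C).b 0) ((cx C).db 0) (harm_bot h)
    have h2 : rk (tau Γ) (((cx C).b 0).map (V7N.evM (canL : Γ →* NG Γ))) = 0 := rk_cols_zero _
    rw [h2, add_zero] at h1
    exact (zero_iff C).2 h1
  | succ n =>
    have h1 := lnk Γ _ _ _ ((cx C).d (n + 1)) ((cx C).b (n + 1)) ((cx C).db (n + 1)) (harm_bot h)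
    exact (succ_iff C n).2 h1

theorem singer [Infinite Γ] (lnk : LNK) {q D : ℕ} (P : PD Γ q) (hQ : QZ Γ D)
    (h : ∀ i, 0 < i → 2 * i < q → Small (cx P.C) D i) (k : ℕ) (hk : 2 * k ≠ q) : l2Betti Γ k = 0 := by
  have h1 : ∀ i, 2 * i < q → l2Betti Γ i = 0 := fun i hi =>
    l2_zero lnk P.C i (b2_all hQ P.C q h i hi)
  rcases Nat.lt_or_ge q k with hlt | hge
  · obtain ⟨n, rfl⟩ : ∃ n, k = n + 1 := ⟨k - 1, by omega⟩
    refine (succ_iff P.C n).2 ?_
    rw [rk_rows_zero (P.zeroC _ (by omega)), rk_rows_zero (P.zeroC _ (by omega)),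
      P.zeroC _ hlt, add_zero, Nat.cast_zero]
  · rcases lt_or_gt_of_ne hk with hl | hg
    · exact h1 k hl
    · exact pd_zero P k (q - k) (by omega) (h1 (q - k) (by omega))

end singer

end Pool.Agent.H320.LC
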