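import Pool.Agent.H320.LC.StmL

/-!
helper213: the middle `ℓ²`-Betti number of a Poincaré duality group is the Euler characteristic.
-/

set_option autoImplicit false

open scoped Matrix ENNReal

namespace Pool.Agent.H320.LC

open Pool.Agent.Helper655.VN Pool.Agent.RK VN831 Pool.Agent.N496.CV

attribute [local instance] VN831.bcFunctor_additive VN831.viaAdd VN831.viaMod V7N.bcF_additive
  V7N.rmAdd V7N.rmMod

namespace EULx

variable {Γ : Type} [Group Γ]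

/-- positive degrees -/
theorem betti_succ (luk : LUK) (C : V7N.FreeRes Γ) (n : ℕ) :
    l2Betti Γ (n + 1) = ENNReal.ofReal
      ((C.r (n + 1) : ℝ) - rk (tau Γ) (nm C (n + 1)) - rk (tau Γ) (nm C n)) := by
  obtain ⟨f⟩ := V7N.v7_succ C n (MonoidHom.id Γ) Function.injective_id (canL : Γ →* NG Γ) canL
    (RingHom.id (NG Γ)) (fun k => rfl) indep_id
  have f' : homN Γ (n + 1) ≃ₗ[NG Γ]
    HR (RingHom.id (NG Γ)) (canL : Γ →* NG Γ) (nm C (n + 1)) (nm C n) := f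
  have h1 : l2Betti Γ (n + 1) =
      luckDim Γ (HR (RingHom.id (NG Γ)) (canL : Γ →* NG Γ) (nm C (n + 1)) (nm C n)) :=
    luckDim_congr f'
  rw [h1]
  exact luk Γ _ _ _ _ _ (nm_mul C n)

/-- degree zero -/
theorem betti_zero (luk : LUK) (C : V7N.FreeRes Γ) :
    l2Betti Γ 0 = ENNReal.ofReal ((C.r 0 : ℝ) - rk (tau Γ) (nm C 0)) := by
  obtain ⟨f⟩ := V7N.v7_zero C (MonoidHom.id Γ) Function.injective_id (canL : Γ →* NG Γ) canL
    (RingHom.id (NG Γ)) (fun k => rfl) indep_id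
  have f' : homN Γ 0 ≃ₗ[NG Γ] HR (RingHom.id (NG Γ)) (canL : Γ →* NG Γ) (nm C 0)
    ((0 : Matrix (Fin (C.r 0)) (Fin 0) (MonoidAlgebra ℤ Γ)).map
      (V7N.evM (canL : Γ →* NG Γ))) := f
  have h1 : l2Betti Γ 0 = luckDim Γ (HR (RingHom.id (NG Γ)) (canL : Γ →* NG Γ) (nm C 0)
      ((0 : Matrix (Fin (C.r 0)) (Fin 0) (MonoidAlgebra ℤ Γ)).map
        (V7N.evM (canL : Γ →* NG Γ)))) := luckDim_congr f'
  have h2 : nm C 0 * ((0 : Matrix (Fin (C.r 0)) (Fin 0) (MonoidAlgebra ℤ Γ)).map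
      (V7N.evM (canL : Γ →* NG Γ))) = 0 := by
    ext1 i j
    exact j.elim0
  have h3 := rk_cols_zero ((0 : Matrix (Fin (C.r 0)) (Fin 0) (MonoidAlgebra ℤ Γ)).map
    (V7N.evM (canL : Γ →* NG Γ)))
  rw [h1, luk Γ _ _ _ _ _ h2, h3, sub_zero]

/-- the ranks of two consecutive matrices -/
theorem ranks_le (C : V7N.FreeRes Γ) (n : ℕ) :
    rk (tau Γ) (nm C (n + 1)) + rk (tau Γ) (nm C n) ≤ (C.r (n + 1) : ℝ) := by
  have h3 := Pool.Agent.RK.RkSyl.rk_sylvester (vn_NG (G := Γ)) (nm C (n + 1)) (nm C n)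
    (nm_mul C n)
  rw [Fintype.card_fin] at h3
  exact h3

/-- telescoping -/
theorem tele (r R : ℕ → ℝ) (k : ℕ) (h0 : R 0 = r 0)
    (h : ∀ n, n + 1 ≠ k + 1 → R (n + 1) + R n = r (n + 1)) (hz : R (2 * (k + 1)) = 0) :
    (-1 : ℝ) ^ (k + 1) * ∑ i ∈ Finset.range (2 * (k + 1) + 1), (-1 : ℝ) ^ i * r i =
      r (k + 1) - R (k + 1) - R k := by
  have h1 : ∀ n, n < k + 1 → ∑ i ∈ Finset.range (n + 1), (-1 : ℝ) ^ i * r i = (-1) ^ n * R n := by
    intro n
    induction n with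
    | zero =>
      intro _
      rw [Finset.sum_range_one, h0]
    | succ n ih =>
      intro hn
      rw [Finset.sum_range_succ, ih (by omega), ← h n (by omega), pow_succ]
      ring
  have h2 : ∀ j, ∑ i ∈ Finset.range (k + 2 + j), (-1 : ℝ) ^ i * r i =
      (-1) ^ (k + 1) * (r (k + 1) - R (k + 1) - R k) + (-1) ^ (k + 1 + j) * R (k + 1 + j) := by
    intro j
    induction j with
    | zero =>
      rw [Nat.add_zero, Nat.add_zero, Finset.sum_range_succ, h1 k (by omega), pow_succ]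
      ring
    | succ j ih =>
      have e1 : k + 2 + (j + 1) = (k + 2 + j) + 1 := by omega
      have e2 : k + 2 + j = (k + 1 + j) + 1 := by omega
      have e3 : k + 1 + (j + 1) = (k + 1 + j) + 1 := by omega
      rw [e1, Finset.sum_range_succ, ih, e2, e3, ← h (k + 1 + j) (by omega), pow_succ]
      ring
  have h3 := h2 (k + 1)
  have e4 : k + 2 + (k + 1) = 2 * (k + 1) + 1 := by omega
  have e5 : k + 1 + (k + 1) = 2 * (k + 1) := by omega
  rw [e4, e5, hz, mul_zero, add_zero] at h3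
  rw [h3, ← mul_assoc, ← pow_add, e5, pow_mul]
  norm_num

end EULx

open EULx in
theorem eul (luk : LUK) : EUL := by
  intro Γ _ m P hm
  cases m with
  | zero =>
    have h1 : rk (tau Γ) (nm P.C 0) = 0 := rk_rows_zero (P.zeroC 1 (by omega)) _
    have h2 := betti_zero luk P.C
    rw [h1, sub_zero] at h2
    have h3 : (-1 : ℝ) ^ 0 * ∑ i ∈ Finset.range (2 * 0 + 1), (-1 : ℝ) ^ i * (P.C.r i : ℝ) =
        (P.C.r 0 : ℝ) := by
      have h4 : ∀ r : ℕ → ℝ, (-1 : ℝ) ^ 0 * ∑ i ∈ Finset.range (2 * 0 + 1), (-1 : ℝ) ^ i * r i =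
          r 0 := by
        intro r
        rw [Nat.mul_zero, Nat.zero_add, Finset.sum_range_one, pow_zero, one_mul, one_mul]
      exact h4 fun i => (P.C.r i : ℝ)
    rw [h3]
    exact ⟨Nat.cast_nonneg _, h2⟩
  | succ k =>
    have h0 : rk (tau Γ) (nm P.C 0) = (P.C.r 0 : ℝ) := (zero_iff P.C).1 (hm 0 (by omega))
    have hs : ∀ n, n + 1 ≠ k + 1 →
        rk (tau Γ) (nm P.C (n + 1)) + rk (tau Γ) (nm P.C n) = (P.C.r (n + 1) : ℝ) :=
      fun n hn => (succ_iff P.C n).1 (hm (n + 1) hn)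
    have hz : rk (tau Γ) (nm P.C (2 * (k + 1))) = 0 := rk_rows_zero (P.zeroC _ (by omega)) _
    have h3 := tele (fun i => (P.C.r i : ℝ)) (fun i => rk (tau Γ) (nm P.C i)) k h0 hs hz
    have h5 : (-1 : ℝ) ^ (k + 1) *
        ∑ i ∈ Finset.range (2 * (k + 1) + 1), (-1 : ℝ) ^ i * (P.C.r i : ℝ) =
        (P.C.r (k + 1) : ℝ) - rk (tau Γ) (nm P.C (k + 1)) - rk (tau Γ) (nm P.C k) := h3
    rw [h5, betti_succ luk P.C k]
    have h4 := ranks_le P.C k
    exact ⟨by linarith, rfl⟩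

end Pool.Agent.H320.LC
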