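import Pool.Agent.H320.LC.StmL

/-!
helper548 for helper320: harmonic vectors in the two formalisms.
-/

set_option autoImplicit false

open scoped Matrix ENNReal InnerProductSpace

namespace Pool.Agent.H320.LC

open Pool.Agent.Helper655.VN Pool.Agent.RK VN831 Pool.Agent.N496.CV
open Pool.Agent.H80R2.BC (L2 GMat act kerA)
open Pool.Agent.TH107.AT (mop mop_apply ra ra_apply adjM st adjoint_mop)
open Pool.Agent.Y194.VN (harm harm_eq cf cX)

attribute [local instance] VN831.bcFunctor_additive VN831.viaAdd VN831.viaMod V7N.bcF_additive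
  V7N.rmAdd V7N.rmMod

namespace LNKx

variable {Γ : Type} [Group Γ]

/-- the value of `x δ_1` at `g⁻¹` -/
noncomputable def ph (x : NG Γ) (g : Γ) : ℂ := ((x : EllTwo Γ →L[ℂ] EllTwo Γ) (dl 1)) g⁻¹

theorem ph_zero (g : Γ) : ph (0 : NG Γ) g = 0 := rfl

theorem ph_add (x y : NG Γ) (g : Γ) : ph (x + y) g = ph x g + ph y g := rfl

/-- `ph` at a point as an additive map -/
noncomputable def phA (g : Γ) : NG Γ →+ ℂ where
  toFun x := ph x g
  map_zero' := ph_zero g
  map_add' x y := ph_add x y g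

theorem ph_sum {ι : Type} (s : Finset ι) (f : ι → NG Γ) (g : Γ) :
    ph (∑ i ∈ s, f i) g = ∑ i ∈ s, ph (f i) g :=
  map_sum (phA g) f s

theorem ph_zsmul (n : ℤ) (x : NG Γ) (g : Γ) : ph (n • x) g = (n : ℂ) * ph x g := by
  have h : ph (n • x) g = n • ph x g := map_zsmul (phA g) n x
  rw [h, zsmul_eq_mul]

theorem ph_canL (u : Γ) (x : NG Γ) (g : Γ) : ph (canL u * x) g = ph x (g * u) := by
  show ((lam Γ u) ((x : EllTwo Γ →L[ℂ] EllTwo Γ) (dl 1))) g⁻¹ =
    ((x : EllTwo Γ →L[ℂ] EllTwo Γ) (dl 1)) (g * u)⁻¹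
  unfold lam
  rw [permOp_apply, mul_inv_rev]
  rfl

theorem ph_ev (a : MonoidAlgebra ℤ Γ) (x : NG Γ) (g : Γ) :
    ph (V7N.evM (canL : Γ →* NG Γ) a * x) g = a.coeff.sum fun u n => (n : ℂ) * ph x (g * u) := by
  rw [FinAux.evM_apply]
  unfold Finsupp.sum
  rw [Finset.sum_mul, ph_sum]
  refine Finset.sum_congr rfl fun u _ => ?_
  rw [smul_mul_assoc, ph_zsmul, ph_canL]

theorem star_canL (u : Γ) : star (canL u : NG Γ) = canL u⁻¹ := Subtype.ext (star_lam u)

theorem ph_evs (a : MonoidAlgebra ℤ Γ) (x : NG Γ) (g : Γ) :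
    ph (star (V7N.evM (canL : Γ →* NG Γ) a) * x) g =
      a.coeff.sum fun u n => (n : ℂ) * ph x (g * u⁻¹) := by
  rw [FinAux.evM_apply]
  unfold Finsupp.sum
  rw [star_sum, Finset.sum_mul, ph_sum]
  refine Finset.sum_congr rfl fun u _ => ?_
  rw [star_zsmul, star_canL, smul_mul_assoc, ph_zsmul, ph_canL]

variable {b : ℕ}

/-- the vector of a column -/
noncomputable def vec (x : Fin b → NG Γ) : L2 (Fin b × Γ) :=
  ⟨fun p => ph (x p.1) p.2, by
    refine memℓp_gen ?_
    rw [summable_prod_of_nonneg (fun p => by positivity)]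
    refine ⟨fun i => ?_, (hasSum_fintype _).summable⟩
    have h1 := (lp.memℓp ((x i : EllTwo Γ →L[ℂ] EllTwo Γ) (dl 1))).summable (by norm_num)
    exact ((Equiv.inv Γ).summable_iff (f := fun h =>
      ‖((x i : EllTwo Γ →L[ℂ] EllTwo Γ) (dl 1)) h‖ ^ (2 : ENNReal).toReal)).2 h1⟩

theorem vec_apply (x : Fin b → NG Γ) (i : Fin b) (g : Γ) : vec x (i, g) = ph (x i) g := rfl

theorem eq_zero_of_vec (x : Fin b → NG Γ) (h : vec x = 0) (i : Fin b) : x i = 0 := by
  apply ext_NG
  ext g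
  have h1 : vec x (i, g⁻¹) = 0 := by rw [h]; rfl
  rw [vec_apply] at h1
  unfold ph at h1
  rw [inv_inv] at h1
  rw [h1]
  rfl

theorem mem_ker {a : ℕ} (A : Matrix (Fin a) (Fin b) (MonoidAlgebra ℤ Γ)) (x : Fin b → NG Γ)
    (h : ∀ k, ∑ i, V7N.evM (canL : Γ →* NG Γ) (A k i) * x i = 0) : vec x ∈ kerA (cf A) := by
  intro k g
  have h1 := congrArg (fun y => ph y g) (h k)
  simp only [ph_zero] at h1
  rw [ph_sum] at h1
  rw [← h1]
  unfold act
  refine Finset.sum_congr rfl fun i _ => ?_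
  rw [ph_ev]
  exact Finsupp.sum_mapRange_index (fun _ => zero_mul _)

theorem adj_zero {c : ℕ} (B : Matrix (Fin b) (Fin c) (MonoidAlgebra ℤ Γ)) (x : Fin b → NG Γ)
    (h : ∀ l, ∑ i, star (V7N.evM (canL : Γ →* NG Γ) (B i l)) * x i = 0) :
    ContinuousLinearMap.adjoint (mop (cX B)) (vec x) = 0 := by
  rw [adjoint_mop]
  ext ⟨l, g⟩
  rw [mop_apply]
  have h1 := congrArg (fun y => ph y g) (h l)
  simp only [ph_zero] at h1
  rw [ph_sum] at h1
  refine Eq.trans ?_ h1
  refine Finset.sum_congr rfl fun i _ => ?_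
  rw [ra_apply, ph_evs]
  show (st (cX B i l)).coeff.sum _ = _
  unfold st
  rw [MonoidAlgebra.coeff_ofCoeff, Finsupp.sum_mapRange_index (fun _ => zero_mul _),
    Finsupp.sum_mapDomain_index (fun _ => by rw [map_zero, zero_mul])
      (fun _ _ _ => by rw [map_add, add_mul])]
  show (cf B i l).sum _ = _
  unfold cf
  rw [Finsupp.sum_mapRange_index (fun _ => by rw [map_zero, zero_mul])]
  refine Finset.sum_congr rfl fun u _ => ?_
  show (starRingEnd ℂ) (((B i l).coeff u : ℤ) : ℂ) * _ = _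
  rw [map_intCast, vec_apply]

end LNKx

open LNKx in
theorem lnk : LNK := by
  intro Γ _ a b c A B hAB hh
  classical
  set A' := A.map (V7N.evM (canL : Γ →* NG Γ)) with hA'
  set B' := B.map (V7N.evM (canL : Γ →* NG Γ)) with hB'
  have hAB' : A' * B' = 0 := by
    rw [hA', hB', ← Matrix.map_mul, hAB]
    ext1 i j
    exact map_zero (V7N.evM (canL : Γ →* NG Γ))
  obtain ⟨p, q, hp, hq, hpq, hqp, hTr⟩ := projections A' B' hAB'
  have hqB : q * B' = 0 := by
    rw [← hp.mul, ← Matrix.mul_assoc, hqp, Matrix.zero_mul]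
  have hAq : A' * q = A' := by
    have := congrArg Matrix.conjTranspose hq.mul
    rwa [Matrix.conjTranspose_mul, hq.star, Matrix.conjTranspose_conjTranspose] at this
  have hAp : A' * p = 0 := Pool.Agent.RK.Lp.lp_min_mat hp A' hAB'
  have heB : (1 - p - q) * B' = 0 := by
    rw [Matrix.sub_mul, Matrix.sub_mul, Matrix.one_mul, hp.mul, hqB, sub_self, sub_zero]
  have hAe : A' * (1 - p - q) = 0 := by
    rw [Matrix.mul_sub, Matrix.mul_sub, Matrix.mul_one, hAp, hAq, sub_zero, sub_self]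
  have hes : (1 - p - q)ᴴ = 1 - p - q := by
    rw [Matrix.conjTranspose_sub, Matrix.conjTranspose_sub, Matrix.conjTranspose_one, hp.star,
      hq.star]
  have hBe : B'ᴴ * (1 - p - q) = 0 := by
    have := congrArg Matrix.conjTranspose heB
    rwa [Matrix.conjTranspose_mul, hes, Matrix.conjTranspose_zero] at this
  set e := 1 - p - q with he0
  have he : e = 0 := by
    ext1 i j
    refine eq_zero_of_vec (fun i => e i j) ?_ i
    have hX : vec (fun i => e i j) ∈ harm B A := by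
      rw [harm_eq]
      refine Submodule.mem_inf.2 ⟨mem_ker A _ fun k => ?_, ?_⟩
      · exact congrFun (congrFun hAe k) j
      · refine (Pool.Agent.W656.VA.mem_kr _ _).2 (adj_zero B _ fun l => ?_)
        exact congrFun (congrFun hBe l) j
    rw [hh] at hX
    exact (Submodule.mem_bot ℂ).1 hX
  have h0 : Tr (tau Γ) e = 0 := by
    rw [he]
    unfold Tr
    simp
  rw [h0] at hTr
  linarith

end Pool.Agent.H320.LC
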