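import Pool.Agent.H320.LC.StmL

/-!
helper94 for helper320: Lueck's dimension of the homology of a matrix complex is given by the ranks.
-/

set_option autoImplicit false

open scoped Matrix ENNReal

noncomputable section

namespace Pool.Agent.H320.LC

open Pool.Agent.Helper655.VN Pool.Agent.RK VN831 Pool.Agent.N496.CV

attribute [local instance] VN831.bcFunctor_additive VN831.viaAdd VN831.viaMod V7N.bcF_additive
  V7N.rmAdd V7N.rmMod

namespace LUKx

variable {K : Type} [Group K] {a b d : ℕ}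

theorem hrow {n : ℕ} (Y : Matrix Unit (Fin n) (NG K)) (hY : Tr (tau K) (Y * Yᴴ) = 0) : Y = 0 := by
  refine (Pool.Agent.RK.Tr.tr_star (vn_NG (G := K)) Y).2 ?_
  rw [Pool.Agent.RK.Tr.tr_comm (vn_NG (G := K))]
  exact hY

theorem hpos {n : ℕ} (Y : Matrix Unit (Fin n) (NG K)) : 0 ≤ Tr (tau K) (Y * Yᴴ) := by
  rw [Pool.Agent.RK.Tr.tr_comm (vn_NG (G := K))]
  exact (Pool.Agent.RK.Tr.tr_star (vn_NG (G := K)) Y).1

theorem hM (A : Matrix (Fin a) (Fin b) (NG K)) (B : Matrix (Fin b) (Fin d) (NG K))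
    {p q e : Matrix (Fin b) (Fin b) (NG K)} (hp : IsLP B p) (hq : IsLP Aᴴ q) (he : p + q + e = 1)
    (hes : eᴴ = e) (hee : e * e = e) (x : Fin b → NG K)
    (hx : Matrix.vecMul x (Aᴴ * A + B * Bᴴ + e) = 0) : x = 0 := by
  let X : Matrix Unit (Fin b) (NG K) := fun _ => x
  have h1 : X * (Aᴴ * A + B * Bᴴ + e) = 0 := by
    ext1 i j
    exact congrFun hx j
  have h2 : (X * Aᴴ) * (X * Aᴴ)ᴴ + (X * B) * (X * B)ᴴ + (X * e) * (X * e)ᴴ = 0 := by
    have h3 : (X * (Aᴴ * A + B * Bᴴ + e)) * Xᴴ = 0 := by rw [h1, Matrix.zero_mul]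
    have h3' : (X * e) * (X * e)ᴴ = X * e * Xᴴ := by
      rw [Matrix.conjTranspose_mul, hes, Matrix.mul_assoc, ← Matrix.mul_assoc e e, hee, Matrix.mul_assoc]
    rw [h3', ← h3]
    simp only [Matrix.conjTranspose_mul, Matrix.conjTranspose_conjTranspose, Matrix.mul_add, Matrix.add_mul,
      Matrix.mul_assoc]
  have h4 : Tr (tau K) ((X * Aᴴ) * (X * Aᴴ)ᴴ) + Tr (tau K) ((X * B) * (X * B)ᴴ) +
      Tr (tau K) ((X * e) * (X * e)ᴴ) = 0 := by
    have h5 := congrArg (Tr (tau K)) h2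
    unfold Tr at h5 ⊢
    simp only [Matrix.add_apply, map_add, Finset.sum_add_distrib, Matrix.zero_apply, map_zero,
      Finset.sum_const_zero] at h5
    exact h5
  have h6 := hpos (X * Aᴴ)
  have h7 := hpos (X * B)
  have h7' := hpos (X * e)
  have h8 := hrow (X * Aᴴ) (by linarith)
  have h9 := hrow (X * B) (by linarith)
  have h9' := hrow (X * e) (by linarith)
  have h10 : X = 0 := by
    have h11 := Pool.Agent.RK.Lp.lp_min_mat hq X h8
    have h12 := Pool.Agent.RK.Lp.lp_min_mat hp X h9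
    rw [← Matrix.mul_one X, ← he, Matrix.mul_add, Matrix.mul_add, h11, h12, h9', add_zero, add_zero]
  exact congrFun h10 ()

theorem key (A : Matrix (Fin a) (Fin b) (NG K)) (B : Matrix (Fin b) (Fin d) (NG K)) (hAB : A * B = 0)
    {p q e : Matrix (Fin b) (Fin b) (NG K)} (hp : IsLP B p) (hq : IsLP Aᴴ q) (he : p + q + e = 1)
    (hes : eᴴ = e) (hee : e * e = e) (heB : e * B = 0) (hAe : A * e = 0) (z : Fin b → NG K)
    (hzB : Matrix.vecMul z B = 0) (hze : Matrix.vecMul z e = 0) :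
    ∃ (s : NG K) (w : Fin a → NG K), Nz s ∧ Matrix.vecMul w A = fun j => s * z j := by
  obtain ⟨s, c, hs, hc⟩ := Pool.Agent.RK.OreMat.ore_mat (vn_NG (G := K)) (Aᴴ * A + B * Bᴴ + e)
    (hM A B hp hq he hes hee) z
  let X : Matrix Unit (Fin b) (NG K) := fun _ => c
  let Z : Matrix Unit (Fin b) (NG K) := fun _ j => s * z j
  have h1 : X * (Aᴴ * A + B * Bᴴ + e) = Z := by
    ext1 i j
    exact (congrFun hc j).symm
  have h2 : ∀ {n : ℕ} (Y : Matrix (Fin b) (Fin n) (NG K)), Matrix.vecMul z Y = 0 → Z * Y = 0 := by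
    intro n Y hY
    ext1 i j
    show ∑ l, s * z l * Y l j = 0
    have h3 := congrFun hY j
    have h4 : ∑ l, z l * Y l j = 0 := h3
    rw [Finset.sum_congr rfl fun l _ => mul_assoc _ _ _, ← Finset.mul_sum, h4, mul_zero]
  have hBe : Bᴴ * e = 0 := by
    have := congrArg Matrix.conjTranspose heB
    rwa [Matrix.conjTranspose_mul, hes, Matrix.conjTranspose_zero] at this
  have h3 : X * B * Bᴴ * B = 0 := by
    have h := h2 B hzB
    rw [← h1, Matrix.mul_add, Matrix.mul_add, Matrix.add_mul, Matrix.add_mul, Matrix.mul_assoc X (Aᴴ * A) B,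
      Matrix.mul_assoc Aᴴ A B, hAB, Matrix.mul_zero, Matrix.mul_zero, zero_add, Matrix.mul_assoc X e B, heB,
      Matrix.mul_zero, add_zero] at h
    rw [Matrix.mul_assoc X B Bᴴ]
    exact h
  have h4 : X * B * Bᴴ = 0 := by
    refine hrow _ ?_
    have h5 : (X * B * Bᴴ) * (X * B * Bᴴ)ᴴ = 0 := by
      have h6 : (X * B * Bᴴ) * (X * B * Bᴴ)ᴴ = (X * B * Bᴴ * B) * (Bᴴ * Xᴴ) := by
        simp only [Matrix.conjTranspose_mul, Matrix.conjTranspose_conjTranspose, Matrix.mul_assoc]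
      rw [h6, h3, Matrix.zero_mul]
    rw [h5]
    unfold Tr
    simp
  have h5 : X * e = 0 := by
    have h := h2 e hze
    rw [← h1, Matrix.mul_add, Matrix.mul_add, Matrix.add_mul, Matrix.add_mul, Matrix.mul_assoc X (Aᴴ * A) e,
      Matrix.mul_assoc Aᴴ A e, hAe, Matrix.mul_zero, Matrix.mul_zero, zero_add, Matrix.mul_assoc X (B * Bᴴ) e,
      Matrix.mul_assoc B Bᴴ e, hBe, Matrix.mul_zero, Matrix.mul_zero, zero_add, Matrix.mul_assoc X e e, hee] at h
    exact h
  have h6 : (X * Aᴴ) * A = Z := by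
    rw [← h1, Matrix.mul_add, Matrix.mul_add, ← Matrix.mul_assoc X B Bᴴ, h4, h5, add_zero, add_zero, Matrix.mul_assoc]
  refine ⟨s, (X * Aᴴ) (), hs, ?_⟩
  funext j
  exact congrFun (congrFun h6 ()) j

/-- representatives of the images of the rows -/
theorem gen {R : Type} [Ring R] {b k : ℕ} (M M' : Submodule R (Fin b → Via (RingHom.id R)))
    (e' : Matrix (Fin k) (Fin k) R) (he' : e' * e' = e') (f : rowMod e' →ₗ[R] (M ⧸ M'.submoduleOf M)) :
    ∃ N : Matrix (Fin k) (Fin b) R, (∀ i, (show Fin b → Via (RingHom.id R) from N i) ∈ M) ∧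
      ∀ (v : Fin k → R) (hv : v ∈ rowMod e'), ∃ y : M,
        (show Fin b → R from y.1) = Matrix.vecMul v N ∧ f ⟨v, hv⟩ = Submodule.Quotient.mk y := by
  have hrw : ∀ i, (e' i) ∈ rowMod e' := by
    intro i
    show Matrix.vecMul (e' i) e' = e' i
    rw [← Matrix.mul_apply_eq_vecMul, he']
  have hch : ∀ i, ∃ z : M, (Submodule.Quotient.mk z : M ⧸ M'.submoduleOf M) = f ⟨e' i, hrw i⟩ :=
    fun i => Submodule.Quotient.mk_surjective _ _
  choose zz hzz using hch
  refine ⟨fun i => (show Fin b → R from (zz i).1), fun i => (zz i).2, fun v hv => ⟨∑ i, v i • zz i, ?_, ?_⟩⟩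
  · have h3 : ((∑ i, v i • zz i : M) : Fin b → Via (RingHom.id R)) = ∑ i, v i • (zz i).1 := by
      rw [Submodule.coe_sum]
      rfl
    funext j
    have h4 := congrFun h3 j
    rw [Finset.sum_apply] at h4
    exact h4
  · have hV : (⟨v, hv⟩ : rowMod e') = ∑ i, v i • (⟨e' i, hrw i⟩ : rowMod e') := by
      apply Subtype.ext
      rw [Submodule.coe_sum]
      funext j
      rw [Finset.sum_apply]
      have hv' : Matrix.vecMul v e' = v := hv
      exact (congrFun hv' j).symm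
    rw [hV, map_sum, ← Submodule.mkQ_apply, map_sum]
    apply Finset.sum_congr rfl
    intro i _
    rw [map_smul, map_smul, Submodule.mkQ_apply, hzz]

/-- if `s z` is a boundary and `f` is injective then `s v = 0` -/
theorem van {R : Type} [Ring R] {b k : ℕ} (M M' : Submodule R (Fin b → Via (RingHom.id R)))
    (e' : Matrix (Fin k) (Fin k) R) (f : rowMod e' →ₗ[R] (M ⧸ M'.submoduleOf M)) (hf : Function.Injective f)
    (s : R) (v : Fin k → R) (hv : v ∈ rowMod e') (y : M) (hy : f ⟨v, hv⟩ = Submodule.Quotient.mk y)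
    (hs : s • y.1 ∈ M') (j : Fin k) : s * v j = 0 := by
  have hsV : f (s • ⟨v, hv⟩) = 0 := by
    rw [map_smul, hy, ← Submodule.Quotient.mk_smul, Submodule.Quotient.mk_eq_zero]
    exact hs
  have hsV0 : s • (⟨v, hv⟩ : rowMod e') = 0 := hf (by rw [hsV, map_zero])
  have h8 := congrArg (fun u : rowMod e' => (u : Fin k → R) j) hsV0
  exact h8

end LUKx

open LUKx in
theorem luk : LUK := by
  classical
  intro K _ a b d A B hAB
  obtain ⟨p, q, hp, hq, hpq, hqp, hTr⟩ := projections A B hAB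
  have hqB : q * B = 0 := by
    rw [← hp.mul, ← Matrix.mul_assoc, hqp, Matrix.zero_mul]
  have hAq : A * q = A := by
    have := congrArg Matrix.conjTranspose hq.mul
    rwa [Matrix.conjTranspose_mul, hq.star, Matrix.conjTranspose_conjTranspose] at this
  have hAp : A * p = 0 := Pool.Agent.RK.Lp.lp_min_mat hp A hAB
  have heB : (1 - p - q) * B = 0 := by
    rw [Matrix.sub_mul, Matrix.sub_mul, Matrix.one_mul, hp.mul, hqB, sub_self, sub_zero]
  have hAe : A * (1 - p - q) = 0 := by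
    rw [Matrix.mul_sub, Matrix.mul_sub, Matrix.mul_one, hAp, hAq, sub_zero, sub_self]
  have hee : (1 - p - q) * (1 - p - q) = 1 - p - q := by
    rw [Matrix.mul_sub, Matrix.mul_sub, Matrix.mul_one, Matrix.sub_mul, Matrix.sub_mul, Matrix.one_mul, hp.idem, hqp,
      Matrix.sub_mul, Matrix.sub_mul, Matrix.one_mul, hpq, hq.idem]
    simp
  have hes : (1 - p - q)ᴴ = 1 - p - q := by
    rw [Matrix.conjTranspose_sub, Matrix.conjTranspose_sub, Matrix.conjTranspose_one, hp.star, hq.star]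
  have he1 : p + q + (1 - p - q) = 1 := by abel
  rw [← hTr]
  apply le_antisymm
  · unfold luckDim
    refine iSup_le fun k => iSup_le fun e' => iSup_le fun he' => iSup_le fun hf => ?_
    obtain ⟨f, hf⟩ := hf
    apply ENNReal.ofReal_le_ofReal
    show Tr (tau K) e' ≤ Tr (tau K) (1 - p - q)
    obtain ⟨N, hN1, hN2⟩ := gen (ZR (RingHom.id (NG K)) (canL : K →* NG K) B)
      (BR (RingHom.id (NG K)) (canL : K →* NG K) A) e' he' f
    have hNB : N * B = 0 := by
      ext1 i j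
      have h1 : Matrix.vecMul (N i) B = 0 := (hN1 i).2
      exact congrFun h1 j
    -- injectivity
    have hinj : ∀ v : Fin k → NG K, Matrix.vecMul v e' = v → Matrix.vecMul (Matrix.vecMul v N) (1 - p - q) = 0 →
        v = 0 := by
      intro v hv hv0
      have h1 : Matrix.vecMul (Matrix.vecMul v N) B = 0 := by
        rw [Matrix.vecMul_vecMul, hNB, Matrix.vecMul_zero]
      obtain ⟨s, w, hs, hw⟩ := key A B hAB hp hq he1 hes hee heB hAe _ h1 hv0
      obtain ⟨y, hy1, hy2⟩ := hN2 v hv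
      have h5 := van _ _ e' f hf s v hv y hy2 (by
        refine ⟨(show Fin a → Via (RingHom.id (NG K)) from w), fun i _ => mem_SR _, ?_⟩
        funext j
        refine Eq.trans (congrFun hw j) ?_
        rw [← hy1]
        rfl)
      funext j
      exact (Pool.Agent.RK.Nz.nz_iff (vn_NG (G := K)) s).1 hs _ (h5 j)
    -- ranks
    obtain ⟨p', hp'⟩ := Pool.Agent.RK.Lp.lp_exists (vn_NG (G := K)) e'
    have hlp : IsLP (e' * (N * (1 - p - q))) p' := by
      refine ⟨hp'.idem, hp'.star, ?_, ?_⟩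
      · rw [← Matrix.mul_assoc, hp'.mul]
      · intro x hx
        apply hp'.min
        apply hinj
        · rw [Matrix.vecMul_vecMul, he']
        · rw [Matrix.vecMul_vecMul, Matrix.vecMul_vecMul]
          exact hx
    have h1 : rk (tau K) (e' * (N * (1 - p - q))) = Tr (tau K) e' := by
      rw [Pool.Agent.RK.Lp.rk_eq _ _ hlp, ← Pool.Agent.RK.Lp.rk_eq _ _ hp',
        Pool.Agent.RK.RkIdem.rk_idem (vn_NG (G := K)) e' he']
    have h2 : rk (tau K) (1 - p - q) = Tr (tau K) (1 - p - q) :=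
      Pool.Agent.RK.RkIdem.rk_idem (vn_NG (G := K)) _ hee
    rw [← h1, ← h2, ← Matrix.mul_assoc]
    exact Pool.Agent.RK.RkMul.rk_mul_right (vn_NG (G := K)) _ _
  · exact dim_le A B (1 - p - q) hee heB hAe

end Pool.Agent.H320.LC
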