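import Pool.Agent.H320.LC.StmP
import Pool.Agent.H320.GS.Base

/-!
helper580: the `p`-adic integrality (`PAD`).
-/

set_option autoImplicit false

open Finset Matrix

namespace Pool.Agent.H320.LC

open Pool.Agent.H320.PG Pool.Agent.H320.TF
open Pool.Agent.H371.SA Pool.Agent.H371.SB

namespace PADx

theorem noT {p : ℕ} [Fact p.Prime] {G : Type} [Group G] {n : ℕ}
    (φ : G →* (Matrix (Fin n) (Fin n) ℤ_[p])ˣ)
    (h : ∀ t ∈ closure (Set.range fun g => ((φ g : (Matrix (Fin n) (Fin n) ℤ_[p])ˣ) :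
      Matrix (Fin n) (Fin n) ℤ_[p])), t ^ p = 1 → t = 1) : NoT p φ := by
  intro t ht htp
  refine h t ?_ htp
  choose g a hga using ht
  refine mem_closure_of_tendsto (b := Filter.atTop)
    (f := fun j => ((φ (g j) : (Matrix (Fin n) (Fin n) ℤ_[p])ˣ) :
      Matrix (Fin n) (Fin n) ℤ_[p])) ?_
    (Filter.Eventually.of_forall fun j => ⟨g j, rfl⟩)
  refine tendsto_pi_nhds.2 fun i => tendsto_pi_nhds.2 fun i' => ?_
  rw [tendsto_iff_norm_sub_tendsto_zero]
  have hp1 : (1 : ℝ) < p := by exact_mod_cast (Fact.out : p.Prime).one_lt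
  refine squeeze_zero (fun j => norm_nonneg _) (fun j => ?_)
    (tendsto_pow_atTop_nhds_zero_of_lt_one (r := ((p : ℝ)⁻¹)) (by positivity)
      (inv_lt_one_of_one_lt₀ hp1))
  have h1 := congrFun (congrFun (hga j) i) i'
  rw [Matrix.add_apply] at h1
  have h3 : ((p : Matrix (Fin n) (Fin n) ℤ_[p]) ^ j * a j) i i' = (p : ℤ_[p]) ^ j * a j i i' := by
    rw [← Nat.cast_pow, ← nsmul_eq_mul, Matrix.smul_apply, nsmul_eq_mul, Nat.cast_pow]
  rw [h3] at h1
  rw [h1, add_sub_cancel_left, norm_mul, PadicInt.norm_p_pow, _root_.zpow_neg, zpow_natCast, inv_pow]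
  exact mul_le_of_le_one_right (by positivity) (PadicInt.norm_le_one _)

theorem quo {p : ℕ} [Fact p.Prime] {G : Type} [Group G] {n D b : ℕ}
    (φ : G →* (Matrix (Fin n) (Fin n) ℤ_[p])ˣ)
    (hb : Nat.card (Set.range fun g => ((φ g : (Matrix (Fin n) (Fin n) ℤ_[p])ˣ) :
      Matrix (Fin n) (Fin n) ℤ_[p]).map (PadicInt.toZMod (p := p))) ∣ D * p ^ b) :
    Quo p D φ := by
  classical
  let ρ : Matrix (Fin n) (Fin n) ℤ_[p] →+* Matrix (Fin n) (Fin n) (ZMod p) :=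
    RingHom.mapMatrix PadicInt.toZMod
  let π : G →* (Matrix (Fin n) (Fin n) (ZMod p))ˣ := (Units.map (ρ : _ →* _)).comp φ
  have hπ : ∀ g, ((π g : (Matrix (Fin n) (Fin n) (ZMod p))ˣ) : Matrix (Fin n) (Fin n) (ZMod p)) =
      ((φ g : (Matrix (Fin n) (Fin n) ℤ_[p])ˣ) :
        Matrix (Fin n) (Fin n) ℤ_[p]).map (PadicInt.toZMod (p := p)) := fun g => rfl
  refine ⟨π.range, inferInstance, inferInstance, π.rangeRestrict, b, ?_, ?_⟩
  · refine dvd_trans (dvd_of_eq ?_) hb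
    refine Nat.card_congr (Equiv.ofBijective
      (fun x : π.range => ⟨((x : (Matrix (Fin n) (Fin n) (ZMod p))ˣ) :
        Matrix (Fin n) (Fin n) (ZMod p)), ?_⟩) ⟨?_, ?_⟩)
    · obtain ⟨_, g, rfl⟩ := x
      exact ⟨g, (hπ g).symm⟩
    · intro x y hxy
      exact Subtype.ext (Units.ext (congrArg Subtype.val hxy))
    · rintro ⟨_, g, rfl⟩
      exact ⟨⟨π g, g, rfl⟩, Subtype.ext (hπ g)⟩
  · intro h hh
    have h1 : π h = 1 := congrArg (fun x : π.range => (x : (Matrix (Fin n) (Fin n) (ZMod p))ˣ)) hh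
    have h2 : ρ ((φ h : (Matrix (Fin n) (Fin n) ℤ_[p])ˣ) : Matrix (Fin n) (Fin n) ℤ_[p]) = 1 :=
      congrArg (fun x : (Matrix (Fin n) (Fin n) (ZMod p))ˣ =>
        (x : Matrix (Fin n) (Fin n) (ZMod p))) h1
    have h3 : ∀ i j, ∃ m : ℤ_[p],
        ((φ h : (Matrix (Fin n) (Fin n) ℤ_[p])ˣ) : Matrix (Fin n) (Fin n) ℤ_[p]) i j =
          (1 : Matrix (Fin n) (Fin n) ℤ_[p]) i j + (p : ℤ_[p]) * m := by
      intro i j
      have h4 := congrFun (congrFun h2 i) j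
      have h5 : PadicInt.toZMod (((φ h : (Matrix (Fin n) (Fin n) ℤ_[p])ˣ) :
          Matrix (Fin n) (Fin n) ℤ_[p]) i j - (1 : Matrix (Fin n) (Fin n) ℤ_[p]) i j) = 0 := by
        rw [map_sub, sub_eq_zero]
        change PadicInt.toZMod _ = (1 : Matrix (Fin n) (Fin n) (ZMod p)) i j at h4
        rw [h4, Matrix.one_apply, Matrix.one_apply]
        split_ifs <;> simp
      have h6 : (((φ h : (Matrix (Fin n) (Fin n) ℤ_[p])ˣ) :
          Matrix (Fin n) (Fin n) ℤ_[p]) i j - (1 : Matrix (Fin n) (Fin n) ℤ_[p]) i j) ∈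
            RingHom.ker (PadicInt.toZMod (p := p)) := h5
      rw [PadicInt.ker_toZMod, PadicInt.maximalIdeal_eq_span_p, Ideal.mem_span_singleton] at h6
      obtain ⟨m, hm⟩ := h6
      exact ⟨m, by rw [← hm]; ring⟩
    choose m hm using h3
    refine ⟨Matrix.of m, ?_⟩
    rw [pow_one]
    ext i j
    rw [Matrix.add_apply, hm i j]
    have h6 : ((p : Matrix (Fin n) (Fin n) ℤ_[p]) * (Matrix.of m)) i j =
        (p : ℤ_[p]) * m i j := by
      rw [← nsmul_eq_mul, Matrix.smul_apply, nsmul_eq_mul]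
      rfl
    rw [h6]

end PADx

theorem pad : PAD := by
  rintro Γ _ D ⟨hD, p, hp, n, f, hf, hcl, b, hb⟩
  have h1 : NoT p f := PADx.noT f hcl
  have h2 : Sep p f := fun g hg => ⟨2, Matrix (Fin n) (Fin n) ℤ_[p], inferInstance,
    inferInstance, inferInstance, inferInstance, f, fun h hh => hh,
    fun h => hg (hf (by rw [h, map_one]))⟩
  have h3 : Quo p D f := PADx.quo f hb
  have h4 := GS.of_noT f h1 h2 h3
  refine ⟨hD, fun v hv => ?_⟩
  obtain ⟨z, hz⟩ := GS.local p 1 D Γ h4 v hv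
  refine ⟨z, ?_⟩
  rw [← hz, Nat.cast_one, mul_one]

end Pool.Agent.H320.LC
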